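import Mathlib
import Pool.Agent.Y845.Log456

/-!
# Erdős's problem on `p_n` and `m_n`: equality has positive lower logarithmic density

`p_n` is the least prime congruent to one modulo `n` and `m_n` is the least positive `m` with
`n ∣ φ(m)`.  There is an absolute constant `c > 0` such that inside every set `S` of natural density
one the harmonic sum of the `n ≤ x` with `p_n = m_n` is at least `c log x` for all large `x`; in
particular `p_n / m_n` does not tend to infinity along `S`.
-/

set_option autoImplicit false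

open Filter Topology

namespace Pool.Agent.Results.MP_06aaae_nt.LogDensityInsideDensityOne

theorem result :
    ∃ c : ℝ, 0 < c ∧ ∀ S : Set ℕ,
      Tendsto (fun N : ℕ => ((S ∩ Set.Iio N).ncard : ℝ) / (N : ℝ)) atTop (𝓝 1) →
        (∀ᶠ x : ℕ in atTop, c * Real.log x ≤
          ∑ n ∈ Finset.Icc 1 x,
            Set.indicator {n : ℕ | n ∈ S ∧
              sInf {p : ℕ | p.Prime ∧ p ≡ 1 [MOD n]} = sInf {m : ℕ | 0 < m ∧ n ∣ Nat.totient m}}
              (fun n : ℕ => 1 / (n : ℝ)) n) ∧
        ¬ Tendsto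
          (fun n : ℕ =>
            ((sInf {p : ℕ | p.Prime ∧ p ≡ 1 [MOD n]} : ℕ) : ℝ) /
              ((sInf {m : ℕ | 0 < m ∧ n ∣ Nat.totient m} : ℕ) : ℝ))
          (atTop ⊓ 𝓟 S) atTop := by
  obtain ⟨c, hc, h⟩ := Pool.Agent.Y845.Log456.log_density
  refine ⟨c, hc, fun S hS => ?_⟩
  have key : ∀ᶠ x : ℕ in atTop, c * Real.log x ≤
      ∑ n ∈ Finset.Icc 1 x,
        Set.indicator {n : ℕ | n ∈ S ∧
          sInf {p : ℕ | p.Prime ∧ p ≡ 1 [MOD n]} = sInf {m : ℕ | 0 < m ∧ n ∣ Nat.totient m}}
          (fun n : ℕ => 1 / (n : ℝ)) n := by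
    filter_upwards [h S hS] with x hx
    refine hx.trans (Finset.sum_le_sum fun n _ => ?_)
    have hsub : Pool.Agent.Erdos456.EqS ∩ S ⊆ {n : ℕ | n ∈ S ∧
        sInf {p : ℕ | p.Prime ∧ p ≡ 1 [MOD n]} = sInf {m : ℕ | 0 < m ∧ n ∣ Nat.totient m}} :=
      fun k hk => ⟨hk.2, hk.1.2⟩
    exact Set.indicator_le_indicator_of_subset hsub (fun _ => by positivity) n
  refine ⟨key, fun hT => ?_⟩
  have h1 := hT.eventually (eventually_ge_atTop 2)
  rw [eventually_inf_principal] at h1
  obtain ⟨N, hN⟩ := eventually_atTop.mp h1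
  have hlog : Tendsto (fun x : ℕ => c * Real.log x) atTop atTop :=
    (Real.tendsto_log_atTop.comp tendsto_natCast_atTop_atTop).const_mul_atTop hc
  obtain ⟨x, hx1, hx2⟩ := (key.and (hlog.eventually (eventually_gt_atTop (N : ℝ)))).exists
  have hle : ∑ n ∈ Finset.Icc 1 x,
      Set.indicator {n : ℕ | n ∈ S ∧
        sInf {p : ℕ | p.Prime ∧ p ≡ 1 [MOD n]} = sInf {m : ℕ | 0 < m ∧ n ∣ Nat.totient m}}
        (fun n : ℕ => 1 / (n : ℝ)) n ≤ ∑ n ∈ Finset.range N, (1 : ℝ) := by
    calc _ ≤ ∑ n ∈ Finset.Icc 1 x, Set.indicator (Set.Iio N) (fun _ : ℕ => (1 : ℝ)) n := by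
          apply Finset.sum_le_sum
          intro n hn
          have hn1 : 1 ≤ n := (Finset.mem_Icc.mp hn).1
          by_cases hE : n ∈ {n : ℕ | n ∈ S ∧
              sInf {p : ℕ | p.Prime ∧ p ≡ 1 [MOD n]} = sInf {m : ℕ | 0 < m ∧ n ∣ Nat.totient m}}
          · have hnN : n < N := by
              by_contra hge
              have h3 := hN n (not_lt.mp hge) hE.1
              rw [hE.2] at h3
              have h4 : ((sInf {m : ℕ | 0 < m ∧ n ∣ Nat.totient m} : ℕ) : ℝ) /
                  ((sInf {m : ℕ | 0 < m ∧ n ∣ Nat.totient m} : ℕ) : ℝ) ≤ 1 := div_self_le_one _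
              linarith
            rw [Set.indicator_of_mem hE, Set.indicator_of_mem (show n ∈ Set.Iio N from hnN)]
            rw [div_le_one (by exact_mod_cast hn1)]
            exact_mod_cast hn1
          · rw [Set.indicator_of_notMem hE]
            exact Set.indicator_nonneg (fun _ _ => zero_le_one) n
      _ ≤ ∑ n ∈ Finset.range N, (1 : ℝ) := by
          rw [Finset.sum_indicator_eq_sum_filter]
          apply Finset.sum_le_sum_of_subset_of_nonneg
          · intro n hn
            exact Finset.mem_range.mpr (Finset.mem_filter.mp hn).2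
          · intros; exact zero_le_one
  have h5 : ∑ n ∈ Finset.range N, (1 : ℝ) = N := by simp
  rw [h5] at hle
  linarith

end Pool.Agent.Results.MP_06aaae_nt.LogDensityInsideDensityOne
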